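import Pool.Agent.H22.LG.Stm
import Pool.Graph.R_seed8.Y77.PAR.ISO

/-! Crew LG, part CHN: climbing the chain of the flag stabilisers. -/

set_option autoImplicit false

namespace H26.LG

open Pool.Agent.Y382.PAR H22.CM H22.LG Matrix

section

variable {F : Type} [Field F] [Fintype F] [DecidableEq F] {n : ℕ} {G : Type} [Group G] [Finite G]

theorem Sc_mem {g : GL (Fin n) F} (h : Sc g) (k : ℕ) : g ∈ P n k F := by
  obtain ⟨c, hc⟩ := h
  rw [mem_P]
  intro i j _ hij
  rw [hc, if_neg (ne_of_gt hij)]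

theorem P_anti (n k : ℕ) (F : Type) [Field F] [Fintype F] [DecidableEq F] :
    P n (k + 1) F ≤ P n k F := fun g hg => by
  rw [mem_P] at hg ⊢
  exact fun i j hj hij => hg i j (by omega) hij

theorem P_last (n : ℕ) (F : Type) [Field F] [Fintype F] [DecidableEq F] :
    P n (n - 1) F = P n n F := by
  ext g
  rw [mem_P, mem_P]
  constructor
  · intro h i j _ hij
    have h1 : j.1 < i.1 := hij
    have h2 := i.2
    exact h i j (by omega) hij
  · intro h i j hj hij
    exact h i j j.2 hij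

theorem mem_Q {D : Dat n F G} {k : ℕ} {x : D.E} (h : x.1 ∈ P n k F) : D.π x ∈ Q D k :=
  Subgroup.mem_map_of_mem _ (Subgroup.mem_subgroupOf.mpr h)

theorem of_mem_Q {D : Dat n F G} {k : ℕ} {x : D.E} (h : D.π x ∈ Q D k) : x.1 ∈ P n k F := by
  obtain ⟨y, hy, hxy⟩ := h
  have hy' : y.1 ∈ P n k F := Subgroup.mem_subgroupOf.mp hy
  have h1 : D.π (x * y⁻¹) = 1 := by
    rw [map_mul, map_inv, hxy, mul_inv_cancel]
  have h2 : (x * y⁻¹).1 ∈ P n k F := Sc_mem (D.ker _ h1) k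
  have h3 : x.1 = (x * y⁻¹).1 * y.1 := by
    rw [← Subgroup.coe_mul, inv_mul_cancel_right]
  rw [h3]
  exact (P n k F).mul_mem h2 hy'

theorem Q_anti (D : Dat n F G) (k : ℕ) : Q D (k + 1) ≤ Q D k := by
  apply Subgroup.map_mono
  intro x hx
  exact Subgroup.mem_subgroupOf.mpr (P_anti n k F (Subgroup.mem_subgroupOf.mp hx))

theorem step (hB : S_BRU) (hT : S_THR) (hD : S_DTA) (D : Dat n F G) (k : ℕ) (hk : k + 2 ≤ n)
    (h : AllPar (Q D (k + 1))) : AllPar (Q D k) := by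
  obtain ⟨w, hw1, hw2, hw3, hw4⟩ := hB F n k hk
  obtain ⟨v, u, hv1, hu1, hv3, hu3, hv2, hu2, hvu⟩ := hT F n k hk
  let w' : D.E := ⟨w, D.sl w hw3⟩
  let v' : D.E := ⟨v, D.sl v hv3⟩
  let u' : D.E := ⟨u, D.sl u hu3⟩
  let H : Subgroup (Q D k) := (Q D (k + 1)).subgroupOf (Q D k)
  have hmemH : ∀ (x : D.E) (hx : x.1 ∈ P n k F),
      ((⟨D.π x, mem_Q hx⟩ : Q D k) ∈ H ↔ x.1 ∈ P n (k + 1) F) := by
    intro x hx
    constructor
    · intro hh
      exact of_mem_Q (Subgroup.mem_subgroupOf.mp hh)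
    · intro hh
      exact Subgroup.mem_subgroupOf.mpr (mem_Q hh)
  refine hD (Q D k) H ⟨D.π w', mem_Q (x := w') hw1⟩ ?_ ?_ ?_ ?_
  · intro hh
    exact hw2 ((hmemH w' hw1).mp hh)
  · rintro ⟨x, hx⟩ hxH
    obtain ⟨y, hy, rfl⟩ := hx
    have hy1 : y.1 ∈ P n k F := Subgroup.mem_subgroupOf.mp hy
    have hy2 : y.1 ∉ P n (k + 1) F := fun hh => hxH ((hmemH y hy1).mpr hh)
    obtain ⟨a, b, ha, hb, hda, hab⟩ := hw4 y.1 hy1 hy2
    let a' : D.E := ⟨a, D.sl a hda⟩
    have hbE : b ∈ D.E := by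
      have : b = (a * w)⁻¹ * y.1 := by rw [hab]; group
      rw [this]
      exact D.E.mul_mem (D.E.inv_mem (D.E.mul_mem a'.2 w'.2)) y.2
    let b' : D.E := ⟨b, hbE⟩
    refine ⟨⟨D.π a', mem_Q (x := a') (P_anti n k F ha)⟩, (hmemH a' (P_anti n k F ha)).mpr ha,
      ⟨D.π b', mem_Q (x := b') (P_anti n k F hb)⟩, (hmemH b' (P_anti n k F hb)).mpr hb, ?_⟩
    apply Subtype.ext
    show D.π y = D.π a' * D.π w' * D.π b'
    rw [← map_mul, ← map_mul]
    congr 1
    apply Subtype.ext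
    exact hab
  · -- three cosets
    have hV : (⟨D.π v', mem_Q (x := v') hv1⟩ : Q D k) ∉ H := fun hh => hv2 ((hmemH v' hv1).mp hh)
    have hU : (⟨D.π u', mem_Q (x := u') hu1⟩ : Q D k) ∉ H := fun hh => hu2 ((hmemH u' hu1).mp hh)
    have hVU : (⟨D.π v', mem_Q (x := v') hv1⟩ : Q D k)⁻¹ * ⟨D.π u', mem_Q (x := u') hu1⟩ ∉ H := by
      intro hh
      apply hvu
      have hm : (v'⁻¹ * u').1 ∈ P n k F :=
        (P n k F).mul_mem ((P n k F).inv_mem hv1) hu1
      apply (hmemH (v'⁻¹ * u') hm).mp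
      have e : (⟨D.π (v'⁻¹ * u'), mem_Q hm⟩ : Q D k) =
          (⟨D.π v', mem_Q (x := v') hv1⟩ : Q D k)⁻¹ * ⟨D.π u', mem_Q (x := u') hu1⟩ := by
        apply Subtype.ext
        show D.π (v'⁻¹ * u') = (D.π v')⁻¹ * D.π u'
        rw [map_mul, map_inv]
      rw [e]
      exact hh
    set V : Q D k := ⟨D.π v', mem_Q (x := v') hv1⟩ with hVdef
    set U : Q D k := ⟨D.π u', mem_Q (x := u') hu1⟩ with hUdef
    let c : Fin 3 → Q D k ⧸ H := ![((1 : Q D k) : Q D k ⧸ H), (V : Q D k ⧸ H), (U : Q D k ⧸ H)]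
    have h01 : ((1 : Q D k) : Q D k ⧸ H) ≠ (V : Q D k ⧸ H) := by
      intro e
      rw [QuotientGroup.eq, inv_one, one_mul] at e
      exact hV e
    have h02 : ((1 : Q D k) : Q D k ⧸ H) ≠ (U : Q D k ⧸ H) := by
      intro e
      rw [QuotientGroup.eq, inv_one, one_mul] at e
      exact hU e
    have h12 : (V : Q D k ⧸ H) ≠ (U : Q D k ⧸ H) := by
      intro e
      rw [QuotientGroup.eq] at e
      exact hVU e
    have hinj : Function.Injective c := by
      intro i j hij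
      fin_cases i <;> fin_cases j
      · rfl
      · exact absurd hij h01
      · exact absurd hij h02
      · exact absurd hij.symm h01
      · rfl
      · exact absurd hij h12
      · exact absurd hij.symm h02
      · exact absurd hij.symm h12
      · rfl
    have h3 := Nat.card_le_card_of_injective c hinj
    rw [Nat.card_eq_fintype_card, Fintype.card_fin] at h3
    rw [Subgroup.index_eq_card]
    exact h3
  · exact Pool.Agent.Y77.PAR.t_ISO _ _ (Subgroup.subgroupOfEquivOfLe (Q_anti D k)).symm h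

end

theorem t_CHN (hB : S_BRU) (hT : S_THR) (hD : S_DTA) : S_CHN := by
  intro F _ _ _ n G _ _ D hn h
  have h0 : Q D (n - 1) = Q D n := by
    unfold Q
    rw [P_last]
  have key : ∀ j : ℕ, j ≤ n - 1 → AllPar (Q D (n - 1 - j)) := by
    intro j
    induction j with
    | zero =>
      intro _
      rw [Nat.sub_zero]
      exact Pool.Agent.Y77.PAR.t_ISO _ _ (MulEquiv.subgroupCongr h0.symm) h
    | succ j ih =>
      intro hj
      have h1 := ih (by omega)
      have h2 : n - 1 - j = (n - 1 - (j + 1)) + 1 := by omega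
      have h3 : AllPar (Q D ((n - 1 - (j + 1)) + 1)) :=
        Pool.Agent.Y77.PAR.t_ISO _ _ (MulEquiv.subgroupCongr (congrArg (Q D) h2)) h1
      exact step hB hT hD D _ (by omega) h3
  have hz := key (n - 1) le_rfl
  rw [Nat.sub_self] at hz
  have htop : Q D 0 = ⊤ := by
    rw [eq_top_iff]
    rintro x -
    obtain ⟨y, rfl⟩ := D.sur x
    apply mem_Q
    rw [mem_P]
    intro i j hj
    exact absurd hj (Nat.not_lt_zero _)
  have e : Q D 0 ≃* G := (MulEquiv.subgroupCongr htop).trans Subgroup.topEquiv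
  exact Pool.Agent.Y77.PAR.t_ISO _ _ e hz

end H26.LG
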